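import Pool.Agent.UL4.Stmts

/-!
Squad UL4, rows WIN and OVA.
-/

set_option autoImplicit false

namespace Pool.Agent.UL4.H82

open MeasureTheory Set

theorem mid {F : ℝ → ℝ} (hF : ConcaveOn ℝ (Icc 0 1) F) {a b u r : ℝ} (ha : 0 ≤ a) (hb : b ≤ 1)
    (hau : a ≤ u) (hub : u ≤ b) (h1 : r ≤ F a) (h2 : r ≤ F b) : r ≤ F u := by
  have h := (hF.convex_ge r).ordConnected
  exact (h.out ⟨⟨ha, (hau.trans hub).trans hb⟩, h1⟩
    ⟨⟨ha.trans (hau.trans hub), hb⟩, h2⟩ ⟨hau, hub⟩).2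

/-- row WIN -/
theorem win : WinStmt := by
  intro F x β ρ l₁ l₂ t hF hx hβρ h1 h2 h3 h4 h5 h6 ht hρt
  have p1 : ρ ≤ F l₁ := h3 l₁ ⟨le_refl _, by linarith⟩
  have p2 : ρ ≤ F (l₁ + 1 / 2) := h3 _ ⟨by linarith, le_refl _⟩
  have q1 : β ≤ F l₂ := h6 l₂ ⟨le_refl _, by linarith⟩
  have q2 : β ≤ F (l₂ + x) := h6 _ ⟨by linarith, le_refl _⟩
  obtain ⟨l', r1, r2, r3, r4, r5, r6⟩ : ∃ l' : ℝ, 0 ≤ l' ∧ l' ≤ t ∧ t ≤ l' + 1 / 2 ∧
      l' + 1 / 2 ≤ 1 ∧ ρ ≤ F l' ∧ ρ ≤ F (l' + 1 / 2) := by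
    by_cases c1 : t < l₁
    · refine ⟨t, ht.1, le_refl _, by linarith, by linarith, hρt, ?_⟩
      exact mid hF (a := t) (b := l₁ + 1 / 2) ht.1 h2 (by linarith) (by linarith) hρt p2
    · by_cases c2 : l₁ + 1 / 2 < t
      · refine ⟨t - 1 / 2, by linarith, by linarith, by linarith, by linarith [ht.2], ?_, ?_⟩
        · exact mid hF (a := l₁) (b := t) h1 ht.2 (by linarith) (by linarith) p1 hρt
        · rw [sub_add_cancel]
          exact hρt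
      · exact ⟨l₁, h1, not_lt.1 c1, not_lt.1 c2, h2, p1, p2⟩
  refine ⟨l', ?_⟩
  by_cases c1 : l' < l₂
  · refine ⟨l', r1, le_refl _, r2, r3, by linarith, by linarith, hβρ.trans r5, r5, r6, ?_⟩
    exact mid hF (a := l') (b := l₂ + x) r1 h5 (by linarith) (by linarith) (hβρ.trans r5) q2
  · by_cases c2 : l₂ + x < l' + 1 / 2
    · refine ⟨l' + 1 / 2 - x, by linarith, by linarith, r2, r3, by linarith, by linarith, ?_, r5,
        r6, ?_⟩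
      · exact mid hF (a := l₂) (b := l' + 1 / 2) h4 r4 (by linarith) (by linarith) q1
          (hβρ.trans r6)
      · rw [sub_add_cancel]
        exact hβρ.trans r6
    · exact ⟨l₂, h4, not_lt.1 c1, r2, r3, not_lt.1 c2, h5, q1, r5, r6, q2⟩

/-- row OVA -/
theorem ova (hMAS : MasStmt) (hPCK : PckStmt) (hWIN : WinStmt) : OvaStmt := by
  intro F hc hF h0 hI l₁ h1 h2 h3
  rcases hPCK F (18 / 25) (Real.sqrt (25 / 27)) hc hF (by norm_num) (by norm_num) with h | h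
  · exact h
  · exfalso
    obtain ⟨l, k1, k2, k3⟩ := h
    have hρ : Real.sqrt (4 / 3) ^ 2 = 4 / 3 := Real.sq_sqrt (by norm_num)
    have hβ : Real.sqrt (25 / 27) ^ 2 = 25 / 27 := Real.sq_sqrt (by norm_num)
    have hρβ : Real.sqrt (4 / 3) * Real.sqrt (25 / 27) = 10 / 9 := by
      rw [← Real.sqrt_mul (by norm_num)]
      rw [show (4 / 3 : ℝ) * (25 / 27) = (10 / 9) ^ 2 by norm_num]
      exact Real.sqrt_sq (by norm_num)
    obtain ⟨l', l'', g1, g2, g3, g4, g5, g6, g7, g8, g9, g10⟩ :=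
      hWIN F (18 / 25) (Real.sqrt (25 / 27)) (Real.sqrt (4 / 3)) l₁ l l₁ hF (by norm_num)
        (Real.sqrt_le_sqrt (by norm_num)) h1 h2 h3 k1 k2 k3 ⟨h1, by linarith⟩
        (h3 l₁ ⟨le_refl _, by linarith⟩)
    have hm := hMAS F l'' l' l₁ (18 / 25) (Real.sqrt (25 / 27)) (Real.sqrt (4 / 3))
      (Real.sqrt (4 / 3)) hc hF h0 g1 g2 g3 g4 g5 g6 (Real.sqrt_nonneg _) (Real.sqrt_nonneg _)
      (Real.sqrt_nonneg _) g7 g8 (h3 l₁ ⟨le_refl _, by linarith⟩) g9 g10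
    rw [hI] at hm
    have e : Real.sqrt (4 / 3) * Real.sqrt (4 / 3) = 4 / 3 := Real.mul_self_sqrt (by norm_num)
    rw [hρ, hβ, hρβ, e] at hm
    norm_num at hm

end Pool.Agent.UL4.H82
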